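import Pool.Agent.W187.UR.NF

/-!
# The Birch and Swinnerton-Dyer products without the Riemann hypothesis

Let `E` be an elliptic curve over a number field `K` and let `F` be a continuation of its Hasse-Weil
`L`-series `E.LSeries` (Mathlib's, defined from minimal equations at all the places) along the real
axis, meromorphic at the real points of `[1, 2]`. For `K = ℚ` it exists by modularity, for totally
real `K` by potential modularity. Write `q_v` for the norm of a prime `v`, and `α_v^k + β_v^k` for
the power sums of the inverse roots of the local polynomial (`= q_v^k + 1 - #Ẽ(𝔽_{q_v^k})` at good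
places by Weil's theorem). For real `γ` and `T > 0` put

`S_γ(T) = ∑_{v, k ≥ 1} -(α_v^k + β_v^k) q_v^{ikγ/T} / (k q_v^k Γ(1 + k log q_v / T))`,

an absolutely convergent series, and `Λ_γ = ∫_0^∞ (e^{-t} - e^{iγt}/Γ(1+t)) dt/t`. So `exp S_γ(T)` is
a smoothed and rotated version of the product of Birch and Swinnerton-Dyer
`∏_{q_v ≤ X} #Ẽ(k_v)/q_v`, `T = log X`. For the sharp product an asymptotic law `∼ C (log X)^r`
implies the Riemann hypothesis (Goldfeld 1982), and for the smoothed product without rotation
(`γ = 0`) it is equivalent to the absence of real zeros `> 1`, beside the statement at `s = 1`. Here it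
is shown that for a rotation `γ > π/2` NOTHING about the zeros of `F` is needed: always

`S_γ(T) = m (log T - Λ_γ) - log |λ| + iπN + O(1/T)`, `exp (S_γ(T)) / T^m → exp (-m Λ_γ) / λ`,

where `m` and `λ` are the order and the leading coefficient of `F` at `s = 1` and `N` is the number
of real zeros minus the number of real poles `> 1`. Hence for EVERY elliptic curve (whose `L`-series
continues) the rank form of the conjecture and the value `B` of the leading coefficient are together
equivalent to `exp (S_γ(T)) / T^r → exp (-r Λ_γ) / B`, `r = rk E(K)`.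

Proof. `1/Γ(1 + v) = (2πi)⁻¹ ∫ exp(e^z) e^{-zv} dz` along the boundary of the half strip
`Re z ≥ a, |Im z| ≤ π` (Hankel). So `S_γ(T)` is the integral of `- exp(e^z) log F(1 + (z - iγ)/T)`.
On the line `Im z = γ`, where `(z - iγ)/T` is real, `exp(e^z)` is extremely small if
`π/2 < γ ≤ π`; the upper side of the contour is put just below this line, and the contour can be
shifted to the left below all the real zeros and poles. Everything is proved in the imported files
(Hankel's formula and the Euler product in the library of helper189; parts by helpers 392, 351, 338).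
-/

set_option autoImplicit false

namespace Pool.Agent.Results.MP_1a91b9_nt.ProductLaw

open Filter Topology Pool.Agent.W189.NF Pool.Agent.W187.UR

open Classical in
/-- the rank of the group of rational points -/
noncomputable def rank {K : Type} [Field K] (E : WeierstrassCurve K) : ℕ :=
  Module.finrank ℤ E.toAffine.Point

/-- **The rotated Birch and Swinnerton-Dyer products obey the conjectured law without any hypothesis
on the zeros.** -/
theorem result {K : Type} [Field K] [NumberField K] (E : WeierstrassCurve K) [E.IsElliptic]
    (F : ℂ → ℂ) (hF : IsCont E F) (γ : ℝ) (hγ : Real.pi / 2 < γ) :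
    (∀ T : ℝ, 0 < T → Summable fun x => ‖rTerm E γ T x‖) ∧
    (∃ (m : ℤ) (l : ℝ), meromorphicOrderAt F 1 = m ∧ meromorphicTrailingCoeffAt F 1 = l ∧ l ≠ 0 ∧
      (fun T : ℝ => rSum E γ T - (m * (Real.log T - Lam γ) - Real.log |l| +
        Real.pi * excess F * Complex.I)) =O[atTop] (fun T : ℝ => 1 / T) ∧
      Tendsto (fun T : ℝ => Complex.exp (rSum E γ T) / (T : ℂ) ^ m) atTop
        (𝓝 (Complex.exp (-(m * Lam γ)) / l))) ∧
    ∀ B : ℝ, B ≠ 0 →
      ((meromorphicOrderAt F 1 = ((rank E : ℤ) : WithTop ℤ) ∧
        meromorphicTrailingCoeffAt F 1 = B) ↔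
      Tendsto (fun T : ℝ => Complex.exp (rSum E γ T) / (T : ℂ) ^ (rank E)) atTop
        (𝓝 (Complex.exp (-(rank E * Lam γ)) / B))) := by
  refine ⟨fun T hT => ?_, nf_rot hF hγ, fun B hB => nf_iff hF hγ (rank E) hB⟩
  simp only [norm_rTerm]
  exact bsTerm_summable E hT

end Pool.Agent.Results.MP_1a91b9_nt.ProductLaw
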