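import Pool.Agent.W192.CM.Asm
import Pool.Agent.W216.CY.Div
import Pool.Agent.W490.CM.Basic
import Pool.Agent.W334.CM.LAT
import Pool.Agent.W55.CM.Divr
import Pool.Agent.W216.CM.MU
import Pool.Agent.W108.CM.COUNT
import Pool.Agent.W346.CM.TAIL
import Pool.Agent.W319.CM.Orth
import Pool.Agent.W636.CM.Mob
import Pool.Agent.W290.CM.Gavg
import Pool.Agent.W311.CM.Gauss
import Pool.Agent.W975.CM.Pois
import Pool.Agent.W803.CM.Theta
import Pool.Agent.W460.CM.AFE
import Pool.Agent.W588.CM.Mainp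
import Pool.Agent.W822.CM.Dualp
import Pool.Agent.W340.CM.FINN

/-!
# Elliptic curves with complex multiplication over ray class fields: characters of large order

`R` is the ring of integers of an imaginary quadratic field `K` of class number one (a lattice
`ℤ + ℤ ω` in `ℂ` that is a principal ideal ring).  `ε` is a primitive character modulo `φ ∈ R` with
`ε(u) u = 1` for all units `u`, so that `ψ((α)) = ε(α) α` is a Hecke character of `K`, for instance
the Hecke character of an elliptic curve `E/K` with complex multiplication by `R`.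

For all but finitely many primitive ray class characters `χ` of `K` of conductor `κ` prime to `φ`
and of order at least `N(κ) ^ (2/3 + δ)` some Galois conjugate `χ ^ a` satisfies
`|L(ψ χ ^ a, 1)| ≥ N(κ) ^ (-δ)`.  Since the vanishing of `L(ψχ, 1)` is invariant under Galois
conjugation over `K`, `L(ψχ, 1) ≠ 0` for all these `χ`, and by Rubin's theorem the `χ`-parts of
`E` and of its Tate–Shafarevich group over the ray class field are finite.

Joint work of helper192 with helpers 55, 108, 216, 290, 311, 319, 334, 340, 346, 460, 490, 588, 636,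
803, 822, 975.
-/

set_option autoImplicit false

open Complex

namespace Pool.Agent.Results.MP_1a91b9_nt.RayClassCharacters

/-- The value of the character `χ` modulo `κ` at `α ∈ R`. -/
noncomputable def val {R : Subring ℂ} {κ : R} (χ : MulChar (R ⧸ Ideal.span {κ}) ℂ) (α : R) : ℂ :=
  χ (Ideal.Quotient.mk (Ideal.span {κ}) α)

/-- `χ` is primitive modulo `κ`: for every proper divisor `κ'` of `κ` there is `α` prime to `κ`,
`α ≡ 1 mod κ'`, with `χ(α) ≠ 1`. -/
def IsPrimitive {R : Subring ℂ} {κ : R} (χ : MulChar (R ⧸ Ideal.span {κ}) ℂ) : Prop :=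
  ∀ κ' : R, κ' ∣ κ → ¬ κ ∣ κ' → ∃ α : R, IsCoprime α κ ∧ κ' ∣ α - 1 ∧ val χ α ≠ 1

/-- **Main theorem.** Let `R = ℤ + ℤ ω` be a subring of `ℂ` that is a lattice and a principal ideal
ring, `ε` a primitive character modulo `φ ∈ R`, `φ ≠ 0`, with `ε(u) u = 1` for all units `u`.  For
every primitive character `χ` modulo `κ`, `κ ≠ 0` prime to `φ`, with `χ(u) = 1` for all units `u`,
there is an entire function `L κ χ` which for `Re s > 3/2` is the `L`-series
`∑ ψχ(𝔞) N𝔞^(-s)`, `ψ((α)) = ε(α) α` (the sum over all `α ∈ R` counts every ideal `card Rˣ` times);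
and for all `M ≥ 1` and `δ > 0` there is `N₀` such that for all `κ` prime to `φ` of norm `|κ|² ≥ N₀`
and all such `χ` of order at least `|κ|^(2(2/3 + δ))` there is a natural number `a` prime to the order
of `χ`, `a ≡ 1 mod M`, such that `χ ^ a` is primitive and `|L κ (χ ^ a) 1| ≥ |κ|^(-2δ)`. -/
theorem result (R : Subring ℂ) (ω : ℂ) (hω : 0 < ω.im)
    (hR : ∀ z : ℂ, z ∈ R ↔ ∃ x y : ℤ, z = x + y * ω) (hpid : IsPrincipalIdealRing R)
    (φ : R) (hφ : φ ≠ 0) (ε : MulChar (R ⧸ Ideal.span {φ}) ℂ) (hε : IsPrimitive ε)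
    (hu : ∀ u : R, IsUnit u → val ε u * (u : ℂ) = 1) :
    ∃ L : (κ : R) → MulChar (R ⧸ Ideal.span {κ}) ℂ → ℂ → ℂ,
      (∀ (κ : R) (χ : MulChar (R ⧸ Ideal.span {κ}) ℂ), κ ≠ 0 → IsCoprime φ κ → IsPrimitive χ →
        (∀ u : R, IsUnit u → val χ u = 1) →
        Differentiable ℂ (L κ χ) ∧ ∀ s : ℂ, 3 / 2 < s.re →
          HasSum (fun α : R => val ε α * val χ α * (α : ℂ) * (‖(α : ℂ)‖ : ℂ) ^ (-2 * s))
            ((Nat.card Rˣ : ℂ) * L κ χ s)) ∧
      ∀ M : ℕ, 1 ≤ M → ∀ δ : ℝ, 0 < δ → ∃ N0 : ℝ, ∀ κ : R, κ ≠ 0 → N0 ≤ Complex.normSq (κ : ℂ) →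
        IsCoprime φ κ → ∀ χ : MulChar (R ⧸ Ideal.span {κ}) ℂ, IsPrimitive χ →
          (∀ u : R, IsUnit u → val χ u = 1) →
          (Complex.normSq (κ : ℂ)) ^ (2 / 3 + δ) ≤ orderOf χ →
          ∃ a : ℕ, Nat.Coprime a (orderOf χ) ∧ a ≡ 1 [MOD M] ∧ IsPrimitive (χ ^ a) ∧
            (∀ u : R, IsUnit u → val (χ ^ a) u = 1) ∧
            (Complex.normSq (κ : ℂ)) ^ (-δ) ≤ ‖L κ (χ ^ a) 1‖ := by
  have hdiv := Pool.Agent.W216.CY.t_div
  have hbasic := Pool.Agent.W490.CM.c_basic
  have hlat := Pool.Agent.W334.CM.c_lat hbasic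
  have hdivr := Pool.Agent.W55.CM.c_divr hbasic
  have hmu := Pool.Agent.W216.CM.c_mu hbasic
  have hcount := Pool.Agent.W108.CM.c_count hbasic hlat hdivr
  have htail := Pool.Agent.W346.CM.c_tail hbasic hlat hcount
  have horth := Pool.Agent.W319.CM.c_orth
  have hmob := Pool.Agent.W636.CM.c_mob
  have hgavg := Pool.Agent.W290.CM.c_gavg horth
  have hgauss := Pool.Agent.W311.CM.c_gauss hbasic
  have hpois := Pool.Agent.W975.CM.c_pois
  have htheta := Pool.Agent.W803.CM.c_theta hbasic hgauss hpois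
  have hafe := Pool.Agent.W460.CMA.c_afe hbasic hlat htheta
  have hmain := Pool.Agent.W588.CM.c_mainp hdiv hbasic hlat hdivr horth hmob htail
  have hdual := Pool.Agent.W822.CM.Dualp.c_dualp hdiv hbasic hlat hmob hgavg
  have hfinn := Pool.Agent.W340.CM.FINN.c_finn hdiv hbasic hlat hmu hmob hmain hdual
  exact Pool.Agent.W192.CM.asm hbasic hgauss hafe hfinn ⟨hω, hR, hpid⟩ φ hφ ε hε hu

end Pool.Agent.Results.MP_1a91b9_nt.RayClassCharacters
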