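import Pool.Agent.W334.BSD.NF

/-!
# Averaged Euler products, continuation near `s = 1` and the rank, over an arbitrary number field

Let `K` be a number field, `E : y² = x³ + a x + b` an elliptic curve with `a, b ∈ 𝓞 K` (every elliptic
curve over `K` has such an equation), and let `N_v` be the number of affine points of `E` over the
residue field at a prime `v ∤ 2(4a³ + 27b²)`, of norm `q_v`. For `K ≠ ℚ` it is not known that the L-series
`L(E/K, s) = ∏_v (1 - (q_v - N_v) q_v^{-s} + q_v^{1-2s})^{-1}` has a continuation to the left of its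
half plane of convergence `Re s > 3/2`, let alone to `s = 1`.

Let `A_k(v)`, `v > 0`, be the `k`-fold iterated average, against the half Gaussian density
`e^{-t²/4v} / √(πv)` on `t > 0`, of `t ↦ log ∏_{q_v ≤ e^t} (N_v + 1)/q_v`, and let
`S_k = {Re s > 1, |Im s| < tan(π/2^{k+1}) (Re s - 1)}`. We prove, with no hypothesis on `E` or `K`:

* (continuation) `A_k(v) = O(e^{εv})` for every `ε > 0` if and only if `L(E/K, s)` has an analytic
  continuation without zeros to the sector `S_k`, whose vertex is the central point `s = 1`;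
* (order) if `L(E/K, s)` is analytic on the closed sector, then `A_k(v) = c log v + O(1)` if and only if it has
  no zeros in `S_k` and `ord_{s=1} L(E/K, s) = 2^k c`; and `A_k(v) ≤ c log v + O(1)` if and only if it has
  no zeros in `S_k` and `ord_{s=1} L(E/K, s) ≤ 2^k c`;
* (rank) if `L(E/K, s)` has an analytic continuation along the real ray `[1, ∞)`, then
  `ord_{s=1} L(E/K, s) = rank E(K)` and `L(E/K, x) ≠ 0` for real `x > 1` if and only if
  `A_k(v) = 2^{-k} rank E(K) log v + O(1)` for some `k ≥ 1`, equivalently for all large `k`.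
-/

set_option autoImplicit false

namespace Pool.Agent.Results.MP_1a91b9_nt.SectorCriterion

open Classical MeasureTheory NumberField IsDedekindDomain

noncomputable section

variable {K : Type} [Field K] [NumberField K]

/-- The number of affine points of `y² = x³ + a x + b` over the residue field at `v`. -/
def pointCount (a b : 𝓞 K) (v : HeightOneSpectrum (𝓞 K)) : ℕ :=
  Nat.card {q : (𝓞 K ⧸ v.asIdeal) × (𝓞 K ⧸ v.asIdeal) //
    q.2 ^ 2 = q.1 ^ 3 + Ideal.Quotient.mk v.asIdeal a * q.1 + Ideal.Quotient.mk v.asIdeal b}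

/-- The primes not dividing `2 (4a³ + 27b²)`. -/
def GoodPrime (a b : 𝓞 K) (v : HeightOneSpectrum (𝓞 K)) : Prop :=
  2 * (4 * a ^ 3 + 27 * b ^ 2) ∉ v.asIdeal

/-- The Euler factor at `v`. -/
def eulerFactor (a b : 𝓞 K) (s : ℂ) (v : HeightOneSpectrum (𝓞 K)) : ℂ :=
  if GoodPrime a b v then
    (1 - ((Ideal.absNorm v.asIdeal : ℂ) - (pointCount a b v : ℂ)) * (Ideal.absNorm v.asIdeal : ℂ) ^ (-s) +
      (Ideal.absNorm v.asIdeal : ℂ) ^ (1 - 2 * s))⁻¹ else 1

/-- `F` is given by the Euler product on `Re s > 2`. -/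
def IsLSeries (a b : 𝓞 K) (F : ℂ → ℂ) : Prop :=
  ∀ s : ℂ, 2 < s.re → HasProd (eulerFactor a b s) (F s)

/-- `∑ log ((N_v + 1)/q_v)` over the (finitely many) good primes with `q_v ≤ e^t`. -/
def logProd (a b : 𝓞 K) (t : ℝ) : ℝ :=
  ∑' v : HeightOneSpectrum (𝓞 K),
    if GoodPrime a b v ∧ (Ideal.absNorm v.asIdeal : ℝ) ≤ Real.exp t then
      Real.log (((pointCount a b v : ℝ) + 1) / Ideal.absNorm v.asIdeal) else 0

/-- The average of `f` against the density `e^{-t²/4v} / √(πv)` on `t > 0`. -/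
def gaussAvg (f : ℝ → ℝ) (v : ℝ) : ℝ :=
  ∫ t in Set.Ioi (0 : ℝ), f t * (Real.exp (-(t ^ 2 / (4 * v))) / Real.sqrt (Real.pi * v))

/-- The open sector with vertex `1`, symmetric about the real axis, of half angle `π / 2^(k+1)`. -/
def sector (k : ℕ) : Set ℂ :=
  {s | 1 < s.re ∧ |s.im| < Real.tan (Real.pi / 2 ^ (k + 1)) * (s.re - 1)}

/-- The closed sector. -/
def closedSector (k : ℕ) : Set ℂ :=
  {s | 1 ≤ s.re ∧ |s.im| ≤ Real.tan (Real.pi / 2 ^ (k + 1)) * (s.re - 1)}

/-- The rank of the group of `K`-rational points. -/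
def rank (a b : 𝓞 K) : ℕ :=
  Module.finrank ℤ
    (WeierstrassCurve.Affine.Point
      (WeierstrassCurve.toAffine
        ({ a₁ := 0, a₂ := 0, a₃ := 0, a₄ := (a : K), a₆ := (b : K) } : WeierstrassCurve K)))

lemma logProd_eq (a b : 𝓞 K) : logProd a b = W334.BSD.NF.lgP a b := rfl

lemma gaussAvg_eq : gaussAvg = W334.BSD.gaussAvg := rfl

lemma eulerFactor_eq (a b : 𝓞 K) : eulerFactor a b = W334.BSD.NF.fac a b := rfl

lemma mem_sector_iff (k : ℕ) (s : ℂ) : s ∈ sector k ↔ s - 1 ∈ W334.BSD.Sec k := by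
  unfold sector W334.BSD.Sec
  simp only [Set.mem_ofPred_eq, Complex.sub_re, Complex.one_re, Complex.sub_im, Complex.one_im,
    sub_zero, sub_pos]

lemma mem_closedSector_iff (k : ℕ) (s : ℂ) : s ∈ closedSector k ↔ s - 1 ∈ W334.BSD.CSec k := by
  unfold closedSector W334.BSD.CSec
  simp only [Set.mem_ofPred_eq, Complex.sub_re, Complex.one_re, Complex.sub_im, Complex.one_im,
    sub_zero, sub_nonneg]

lemma zerofree_iff (k : ℕ) (F : ℂ → ℂ) :
    (∀ s ∈ W334.BSD.Sec k, F (1 + s) ≠ 0) ↔ ∀ s ∈ sector k, F s ≠ 0 := by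
  constructor
  · intro h s hs
    have := h (s - 1) ((mem_sector_iff k s).1 hs)
    rwa [add_sub_cancel] at this
  · intro h s hs
    apply h
    rw [mem_sector_iff, add_sub_cancel_left]
    exact hs

lemma analyticAt_shift {F : ℂ → ℂ} {z : ℂ} (h : AnalyticAt ℂ F (1 + z)) :
    AnalyticAt ℂ (fun q => F (1 + q)) z :=
  AnalyticAt.comp (f := fun q : ℂ => 1 + q) h (analyticAt_const.add analyticAt_id)

lemma analyticAt_unshift {F : ℂ → ℂ} {z : ℂ} (h : AnalyticAt ℂ F (z - 1)) :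
    AnalyticAt ℂ (fun q => F (q - 1)) z :=
  AnalyticAt.comp (f := fun q : ℂ => q - 1) h (analyticAt_id.sub analyticAt_const)

/-- Let `K` be a number field and `a, b ∈ 𝓞 K` with `4a³ + 27b² ≠ 0`; `A_k` is the `k`-fold iterated
Gaussian average of `logProd a b`.
(1) For `k ≥ 1`, `A_k(v) = O(e^{εv})` for every `ε > 0` iff the L-series has a continuation which is analytic
and without zeros on `{Re s > 2} ∪ S_k`.
(2) If `F` continues the L-series analytically to the closed sector, then for real `c`: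
`A_k(v) ≤ c log v + O(1)` iff `F ≠ 0` on `S_k` and `ord_{s=1} F ≤ 2^k c`; `A_k(v) = c log v + O(1)` iff
`F ≠ 0` on `S_k` and `ord_{s=1} F = 2^k c`.
(3) If `F` continues the L-series analytically along the real ray `[1, ∞)` then: `F(x) ≠ 0` for `x > 1` and
`ord_{s=1} F = rank` iff `A_k(v) = 2^{-k} rank log v + O(1)` for some `k ≥ 1`, iff for all large `k`. -/
theorem result (a b : 𝓞 K) (_hΔ : 4 * a ^ 3 + 27 * b ^ 2 ≠ 0) :
    (∀ k : ℕ, 1 ≤ k →
      ((∀ ε : ℝ, 0 < ε → ∃ M : ℝ, ∀ v : ℝ, 1 ≤ v →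
          |gaussAvg^[k] (logProd a b) v| ≤ M * Real.exp (ε * v)) ↔
        ∃ F : ℂ → ℂ, (∀ s : ℂ, s ∈ sector k ∨ 2 < s.re → AnalyticAt ℂ F s ∧ F s ≠ 0) ∧
          IsLSeries a b F)) ∧
    (∀ (F : ℂ → ℂ) (k : ℕ), 1 ≤ k → (∀ s ∈ closedSector k, AnalyticAt ℂ F s) → IsLSeries a b F →
      ∀ c : ℝ,
        ((∃ M : ℝ, ∀ v : ℝ, 1 ≤ v → gaussAvg^[k] (logProd a b) v ≤ c * Real.log v + M) ↔
          (∀ s ∈ sector k, F s ≠ 0) ∧ ∃ r : ℕ, analyticOrderAt F 1 = r ∧ (r : ℝ) ≤ 2 ^ k * c) ∧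
        ((∃ M : ℝ, ∀ v : ℝ, 1 ≤ v → |gaussAvg^[k] (logProd a b) v - c * Real.log v| ≤ M) ↔
          (∀ s ∈ sector k, F s ≠ 0) ∧ ∃ r : ℕ, analyticOrderAt F 1 = r ∧ (r : ℝ) = 2 ^ k * c)) ∧
    (∀ F : ℂ → ℂ, (∀ x : ℝ, 1 ≤ x → AnalyticAt ℂ F x) → IsLSeries a b F →
      (((∀ x : ℝ, 1 < x → F x ≠ 0) ∧ analyticOrderAt F 1 = (rank a b : ℕ∞)) ↔
        ∃ k : ℕ, 1 ≤ k ∧ ∃ M : ℝ, ∀ v : ℝ, 1 ≤ v →
          |gaussAvg^[k] (logProd a b) v - (rank a b / 2 ^ k : ℝ) * Real.log v| ≤ M) ∧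
      (((∀ x : ℝ, 1 < x → F x ≠ 0) ∧ analyticOrderAt F 1 = (rank a b : ℕ∞)) ↔
        ∃ k₀ : ℕ, 1 ≤ k₀ ∧ ∀ k : ℕ, k₀ ≤ k → ∃ M : ℝ, ∀ v : ℝ, 1 ≤ v →
          |gaussAvg^[k] (logProd a b) v - (rank a b / 2 ^ k : ℝ) * Real.log v| ≤ M)) := by
  obtain ⟨C, hC⟩ := W334.BSD.NF.tame_lgP a b
  obtain ⟨D, hD⟩ := W334.BSD.NF.tame_bK a b
  obtain ⟨E, hE⟩ := W334.BSD.NF.lgP_close a b
  have hFB : ∀ F : ℂ → ℂ, IsLSeries a b F → ∀ s : ℂ, 1 < s.re →
      F (1 + s) = Complex.exp (s * W334.BSD.LT (W334.BSD.NF.bK a b) s) := by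
    intro F hF s hs
    have h1 := hF (1 + s) (by rw [Complex.add_re, Complex.one_re]; linarith)
    exact h1.unique (W334.BSD.NF.Lseries a b hs)
  refine ⟨fun k hk => ?_, fun F k hk hF hL c => ?_, fun F hF hL => ?_⟩
  · rw [gaussAvg_eq, logProd_eq, W334.BSD.growth_iff hC hD hE hk]
    constructor
    · rintro ⟨F, hF1, hF2⟩
      refine ⟨fun s => F (s - 1), fun s hs => ?_, fun s hs => ?_⟩
      · have h1 := hF1 (s - 1) (hs.imp (fun h => (mem_sector_iff k s).1 h) (fun h => by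
          rw [Complex.sub_re, Complex.one_re]; linarith))
        exact ⟨analyticAt_unshift h1.1, h1.2⟩
      · have h2 : 1 < (s - 1).re := by rw [Complex.sub_re, Complex.one_re]; linarith
        have h3 := W334.BSD.NF.Lseries a b h2
        rw [add_sub_cancel] at h3
        show HasProd (eulerFactor a b s) (F (s - 1))
        rw [hF2 _ h2]
        exact h3
    · rintro ⟨F, hF1, hF2⟩
      refine ⟨fun s => F (1 + s), fun s hs => ?_, hFB F hF2⟩
      have h1 := hF1 (1 + s) (hs.imp (fun h => by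
        rw [mem_sector_iff, add_sub_cancel_left]; exact h) (fun h => by
          rw [Complex.add_re, Complex.one_re]; linarith))
      exact ⟨analyticAt_shift h1.1, h1.2⟩
  · have hF' : ∀ z ∈ W334.BSD.CSec k, AnalyticAt ℂ (fun q => F (1 + q)) z := by
      intro z hz
      refine analyticAt_shift (hF (1 + z) ?_)
      rw [mem_closedSector_iff, add_sub_cancel_left]
      exact hz
    have h0 : AnalyticAt ℂ F 1 := hF 1 (by
      rw [mem_closedSector_iff, sub_self]
      exact ⟨by simp, by simp⟩)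
    have ho := W334.BSD.order_shift' h0
    refine ⟨?_, ?_⟩
    · rw [gaussAvg_eq, logProd_eq, W334.BSD.upper_iff' hC hD hE hk hF' (hFB F hL) c, ho, zerofree_iff]
    · rw [gaussAvg_eq, logProd_eq, W334.BSD.eq_iff' hC hD hE hk hF' (hFB F hL) c, ho, zerofree_iff]
  · have hF' : ∀ x : ℝ, 0 ≤ x → AnalyticAt ℂ (fun q => F (1 + q)) x := by
      intro x hx
      refine analyticAt_shift ?_
      have := hF (1 + x) (by linarith)
      push_cast at this
      exact this
    have h0 : AnalyticAt ℂ F 1 := by simpa using hF 1 le_rfl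
    have ho := W334.BSD.order_shift' h0
    have hz : (∀ x : ℝ, 0 < x → F (1 + x) ≠ 0) ↔ (∀ x : ℝ, 1 < x → F x ≠ 0) := by
      constructor
      · intro h x hx
        have := h (x - 1) (by linarith)
        push_cast at this
        rwa [add_sub_cancel] at this
      · intro h x hx
        have := h (1 + x) (by linarith)
        push_cast at this
        exact this
    have key := W334.BSD.ray_iff hC hD hE hF' (hFB F hL) (rank a b)
    rw [ho, hz] at key
    rw [gaussAvg_eq, logProd_eq]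
    exact key

end

end Pool.Agent.Results.MP_1a91b9_nt.SectorCriterion
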